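import Pool.Agent.Helper12.RQ.Polar

/-! Positivity and finiteness of the capacity of a segment. -/

set_option autoImplicit false

open MeasureTheory Set Filter Topology Metric

open scoped ENNReal NNReal ContDiff RealInnerProductSpace

namespace Pool.Agent.Helper77.RQ

open Pool.Agent.Helper12.RQ

theorem pt {n : ℕ} (u : E n → ℝ) (hu : ContDiff ℝ 1 u) (hc : HasCompactSupport u) (a w : E n)
    (hw : w ≠ 0) (hw1 : ‖w‖ ≤ 1) :
    ‖u a‖ₑ ≤ ∫⁻ s in Ioi (0:ℝ), ‖fderiv ℝ u (a + s • w)‖ₑ := by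
  set c : ℝ → ℝ := fun s => u (a + s • w) with hcd
  have h1 : ContDiff ℝ 1 c := by fun_prop
  have hw0 : 0 < ‖w‖ := norm_pos_iff.2 hw
  obtain ⟨M, hM⟩ := hc.isCompact.isBounded.subset_closedBall (0 : E n)
  have h2 : HasCompactSupport c := by
    refine HasCompactSupport.intro (isCompact_closedBall (0 : ℝ) ((M + ‖a‖) / ‖w‖)) ?_
    intro s hs
    rw [mem_closedBall, dist_zero_right, Real.norm_eq_abs, not_le, div_lt_iff₀ hw0] at hs
    by_contra hne
    have h3 : a + s • w ∈ tsupport u := subset_tsupport u hne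
    have h4 := hM h3
    rw [mem_closedBall, dist_zero_right] at h4
    have h5 : ‖s • w‖ ≤ ‖a + s • w‖ + ‖a‖ := by
      have : s • w = (a + s • w) - a := by abel
      rw [this]
      refine (norm_sub_le _ _).trans ?_
      have e : a + (a + s • w - a) = a + s • w := by abel
      rw [e]
    rw [norm_smul, Real.norm_eq_abs] at h5
    linarith
  have h3 := h2.integral_Ioi_deriv_eq h1 0
  have h4 : c 0 = u a := by simp [hcd]
  have h5 : ‖u a‖ₑ = ‖∫ x in Ioi (0:ℝ), deriv c x‖ₑ := by rw [h3, h4, enorm_neg]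
  rw [h5]
  refine (enorm_integral_le_lintegral_enorm _).trans ?_
  refine lintegral_mono fun s => ?_
  have hd : HasDerivAt c (fderiv ℝ u (a + s • w) w) s := by
    have hu' : HasFDerivAt u (fderiv ℝ u (a + s • w)) (a + s • w) :=
      ((hu.differentiable one_ne_zero) _).hasFDerivAt
    have h6 : HasDerivAt (fun s : ℝ => a + s • w) w s := by
      simpa using ((hasDerivAt_id s).smul_const w).const_add a
    exact hu'.comp_hasDerivAt s h6
  rw [hd.deriv]
  have h6 : ‖fderiv ℝ u (a + s • w) w‖ ≤ ‖fderiv ℝ u (a + s • w)‖ := by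
    refine (ContinuousLinearMap.le_opNorm _ _).trans ?_
    exact mul_le_of_le_one_right (norm_nonneg _) hw1
  rw [← ofReal_norm, ← ofReal_norm]
  exact ENNReal.ofReal_le_ofReal h6

/-- change of variables in a ball -/
theorem cov {n : ℕ} (F : E n → ℝ≥0∞) (hF : Measurable F) (a : E n) (s : ℝ) (hs : 0 < s) :
    ∫⁻ w in ball (0 : E n) 1, F (a + s • w) =
      ENNReal.ofReal ((s ^ n)⁻¹) * ∫⁻ x, (ball a s).indicator F x := by
  rw [← lintegral_indicator measurableSet_ball]
  have h1 : (fun w : E n => (ball (0 : E n) 1).indicator (fun w => F (a + s • w)) w) =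
      fun w => (fun x => (ball a s).indicator F (a + x)) (s • w) := by
    funext w
    by_cases h : w ∈ ball (0 : E n) 1
    · have h2 : a + s • w ∈ ball a s := by
        rw [mem_ball, dist_eq_norm, add_sub_cancel_left, norm_smul, Real.norm_eq_abs,
          abs_of_pos hs]
        rw [mem_ball, dist_zero_right] at h
        nlinarith
      simp only [indicator_of_mem h, indicator_of_mem h2]
    · have h2 : a + s • w ∉ ball a s := by
        rw [mem_ball, dist_eq_norm, add_sub_cancel_left, norm_smul, Real.norm_eq_abs,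
          abs_of_pos hs]
        rw [mem_ball, dist_zero_right] at h
        nlinarith
      simp only [indicator_of_notMem h, indicator_of_notMem h2]
  rw [h1]
  have hm : Measurable (fun x => (ball a s).indicator F (a + x)) :=
    (hF.indicator measurableSet_ball).comp (by fun_prop)
  have hdim : Module.finrank ℝ (E n) = n := by simp
  rw [← lintegral_map hm (by fun_prop : Measurable fun w : E n => s • w),
    Measure.map_addHaar_smul volume hs.ne', lintegral_smul_measure, hdim,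
    abs_of_pos (by positivity), lintegral_add_left_eq_self]
  rfl

/-- the average along the segment -/
theorem seg {n : ℕ} (F : E n → ℝ≥0∞) (hF : Measurable F) (e : E n) (he : ‖e‖ = 1) (s : ℝ)
    (hs : 0 < s) :
    ∫⁻ t in Icc (0:ℝ) 1, ∫⁻ w in ball (0 : E n) 1, F (t • e + s • w) ≤
      ENNReal.ofReal ((s ^ n)⁻¹ * min 1 (2 * s)) * ∫⁻ x, F x := by
  have h1 : ∀ t : ℝ, ∫⁻ w in ball (0 : E n) 1, F (t • e + s • w) =
      ENNReal.ofReal ((s ^ n)⁻¹) * ∫⁻ x, (ball (t • e) s).indicator F x :=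
    fun t => cov F hF _ s hs
  simp only [h1]
  have hset : MeasurableSet {p : ℝ × E n | p.2 ∈ ball (p.1 • e) s} := by
    have : {p : ℝ × E n | p.2 ∈ ball (p.1 • e) s} = {p : ℝ × E n | dist p.2 (p.1 • e) < s} := rfl
    rw [this]
    exact measurableSet_lt (by fun_prop) measurable_const
  have hm : Measurable (Function.uncurry fun (t : ℝ) (x : E n) =>
      (ball (t • e) s).indicator F x) := by
    have : (Function.uncurry fun (t : ℝ) (x : E n) => (ball (t • e) s).indicator F x) =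
        {p : ℝ × E n | p.2 ∈ ball (p.1 • e) s}.indicator (fun p => F p.2) := by
      funext p
      rfl
    rw [this]
    exact (hF.comp measurable_snd).indicator hset
  rw [lintegral_const_mul' _ _ ENNReal.ofReal_ne_top,
    lintegral_lintegral_swap (μ := volume.restrict (Icc (0:ℝ) 1)) (ν := (volume : Measure (E n)))
      hm.aemeasurable,
    ENNReal.ofReal_mul (by positivity), mul_assoc]
  gcongr
  rw [← lintegral_const_mul' _ _ ENNReal.ofReal_ne_top]
  refine lintegral_mono fun x => ?_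
  rw [ENNReal.ofReal_min, ENNReal.ofReal_one]
  have b1 : ∫⁻ t in Icc (0:ℝ) 1, (ball (t • e) s).indicator F x ≤ 1 * F x := by
    calc ∫⁻ t in Icc (0:ℝ) 1, (ball (t • e) s).indicator F x
        ≤ ∫⁻ t in Icc (0:ℝ) 1, F x := lintegral_mono fun t => indicator_le_self _ _ _
      _ = 1 * F x := by simp
  have b2 : ∫⁻ t in Icc (0:ℝ) 1, (ball (t • e) s).indicator F x ≤
      ENNReal.ofReal (2 * s) * F x := by
    calc ∫⁻ t in Icc (0:ℝ) 1, (ball (t • e) s).indicator F x
        ≤ ∫⁻ t : ℝ, (ball (t • e) s).indicator F x := setLIntegral_le_lintegral _ _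
      _ ≤ ∫⁻ t : ℝ, (Ioo (⟪e, x⟫ - s) (⟪e, x⟫ + s)).indicator (fun _ => F x) t := by
          refine lintegral_mono fun t => ?_
          by_cases h : x ∈ ball (t • e) s
          · have h2 : t ∈ Ioo (⟪e, x⟫ - s) (⟪e, x⟫ + s) := by
              rw [mem_ball, dist_eq_norm] at h
              have h3 : |⟪e, x - t • e⟫| ≤ ‖x - t • e‖ := by
                have := abs_real_inner_le_norm e (x - t • e)
                rwa [he, one_mul] at this
              rw [inner_sub_right, inner_smul_right, real_inner_self_eq_norm_sq, he] at h3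
              have h4 := abs_lt.1 (h3.trans_lt h)
              constructor <;> linarith [h4.1, h4.2]
            simp only [indicator_of_mem h, indicator_of_mem h2, le_refl]
          · simp only [indicator_of_notMem h, zero_le]
      _ = ENNReal.ofReal (2 * s) * F x := by
          rw [lintegral_indicator measurableSet_Ioo, setLIntegral_const, Real.volume_Ioo, mul_comm]
          congr 2; ring
  rcases le_total (1 : ℝ≥0∞) (ENNReal.ofReal (2 * s)) with h | h
  · rw [min_eq_left h]; exact b1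
  · rw [min_eq_right h]; exact b2

/-- the integral over the scales -/
theorem scal (n : ℕ) (p : ℝ) (hn : 2 ≤ n) (hp1 : (n : ℝ) - 1 < p) (hp2 : p < n) :
    ∫⁻ s in Ioi (0:ℝ), ENNReal.ofReal ((s ^ n)⁻¹ * min 1 (2 * s)) ^ (1 / p) < ⊤ := by
  have hn' : (2:ℝ) ≤ n := by exact_mod_cast hn
  have hp : 0 < p := by linarith
  rw [← Ioc_union_Ioi_eq_Ioi (zero_le_one' ℝ)]
  refine (lintegral_union_le _ _ _).trans_lt (ENNReal.add_lt_top.2 ⟨?_, ?_⟩)
  · have h1 : -1 < (1 - n) / p := by
      rw [lt_div_iff₀ hp]; linarith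
    have h2 : IntegrableOn (fun s : ℝ => 2 ^ (1 / p) * s ^ ((1 - n) / p)) (Ioc 0 1) :=
      ((intervalIntegrable_iff_integrableOn_Ioc_of_le zero_le_one).1
        (intervalIntegral.intervalIntegrable_rpow' h1)).const_mul _
    refine lt_of_le_of_lt ?_ h2.lintegral_lt_top
    refine setLIntegral_mono' measurableSet_Ioc fun s hs => ?_
    have hs0 : 0 < s := hs.1
    rw [ENNReal.ofReal_rpow_of_nonneg (by positivity) (by positivity)]
    apply ENNReal.ofReal_le_ofReal
    have h3 : (s ^ n)⁻¹ * min 1 (2 * s) ≤ 2 * s ^ (1 - (n:ℝ)) := by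
      have : s ^ (1 - (n:ℝ)) = s * (s ^ n)⁻¹ := by
        rw [Real.rpow_sub hs0, Real.rpow_one, Real.rpow_natCast, div_eq_mul_inv]
      rw [this]
      calc (s ^ n)⁻¹ * min 1 (2 * s) ≤ (s ^ n)⁻¹ * (2 * s) :=
            mul_le_mul_of_nonneg_left (min_le_right _ _) (by positivity)
        _ = 2 * (s * (s ^ n)⁻¹) := by ring
    calc ((s ^ n)⁻¹ * min 1 (2 * s)) ^ (1 / p) ≤ (2 * s ^ (1 - (n:ℝ))) ^ (1 / p) :=
          Real.rpow_le_rpow (by positivity) h3 (by positivity)
      _ = 2 ^ (1 / p) * s ^ ((1 - n) / p) := by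
          rw [Real.mul_rpow (by norm_num) (by positivity), ← Real.rpow_mul hs0.le]
          ring_nf
  · have h1 : -(n:ℝ) / p < -1 := by
      rw [div_lt_iff₀ hp]; linarith
    have h2 := integrableOn_Ioi_rpow_of_lt h1 one_pos
    refine lt_of_le_of_lt ?_ h2.lintegral_lt_top
    refine setLIntegral_mono' measurableSet_Ioi fun s hs => ?_
    have hs0 : 0 < s := lt_trans one_pos hs
    rw [ENNReal.ofReal_rpow_of_nonneg (by positivity) (by positivity)]
    apply ENNReal.ofReal_le_ofReal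
    have h3 : (s ^ n)⁻¹ * min 1 (2 * s) ≤ s ^ (-(n:ℝ)) := by
      rw [Real.rpow_neg hs0.le, Real.rpow_natCast]
      exact mul_le_of_le_one_right (by positivity) (min_le_left _ _)
    calc ((s ^ n)⁻¹ * min 1 (2 * s)) ^ (1 / p) ≤ (s ^ (-(n:ℝ))) ^ (1 / p) :=
          Real.rpow_le_rpow (by positivity) h3 (by positivity)
      _ = s ^ (-(n:ℝ) / p) := by
          rw [← Real.rpow_mul hs0.le]
          ring_nf

/-- the main inequality -/
theorem main {n : ℕ} (p : ℝ) (hn : 2 ≤ n) (hp1 : (n : ℝ) - 1 < p) (u : E n → ℝ)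
    (hu : ContDiff ℝ 1 u) (hc : HasCompactSupport u) (e : E n) (he : ‖e‖ = 1)
    (hue : ∀ t ∈ Icc (0 : ℝ) 1, 1 ≤ u (t • e)) :
    volume (ball (0 : E n) 1) ≤ en p u ^ (1 / p) *
      (volume (ball (0 : E n) 1) ^ (1 - 1 / p) *
        ∫⁻ s in Ioi (0:ℝ), ENNReal.ofReal ((s ^ n)⁻¹ * min 1 (2 * s)) ^ (1 / p)) := by
  have hn' : (2:ℝ) ≤ n := by exact_mod_cast hn
  have hp : 1 < p := by linarith
  have hp0 : 0 < p := by linarith
  have : Nontrivial (E n) := by
    have : Nonempty (Fin n) := ⟨⟨0, by lia⟩⟩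
    infer_instance
  set μ : Measure (ℝ × E n) := (volume.restrict (Icc (0:ℝ) 1)).prod
    (volume.restrict (ball (0 : E n) 1)) with hμ
  have hμu : μ univ = volume (ball (0 : E n) 1) := by
    rw [hμ, ← univ_prod_univ, Measure.prod_prod]
    simp
  have hG : Continuous fun q : (ℝ × E n) × ℝ =>
      ‖fderiv ℝ u (q.1.1 • e + q.2 • q.1.2)‖ₑ := by
    have h1 : Continuous (fderiv ℝ u) := hu.continuous_fderiv one_ne_zero
    fun_prop
  have step1 : μ univ ≤ ∫⁻ z, (∫⁻ s in Ioi (0:ℝ), ‖fderiv ℝ u (z.1 • e + s • z.2)‖ₑ) ∂μ := by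
    rw [← lintegral_one]
    refine lintegral_mono_ae ?_
    have h1 : ∀ᵐ z ∂μ, z.1 ∈ Icc (0:ℝ) 1 ∧ z.2 ∈ ball (0 : E n) 1 ∧ z.2 ≠ 0 := by
      have a1 : ∀ᵐ z ∂μ, z.1 ∈ Icc (0:ℝ) 1 ∧ z.2 ∈ ball (0 : E n) 1 := by
        rw [hμ, Measure.prod_restrict]
        filter_upwards [ae_restrict_mem (measurableSet_Icc.prod measurableSet_ball)] with z hz
        exact hz
      have a2 : ∀ᵐ z ∂μ, z.2 ≠ 0 := by
        have : ∀ᵐ w ∂(volume.restrict (ball (0 : E n) 1)), w ≠ 0 := by
          refine ae_restrict_of_ae ?_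
          simp [ae_iff]
        exact Measure.quasiMeasurePreserving_snd.ae this
      filter_upwards [a1, a2] with z h1 h2
      exact ⟨h1.1, h1.2, h2⟩
    filter_upwards [h1] with z hz
    have h2 := pt u hu hc (z.1 • e) z.2 hz.2.2 (by
      have := hz.2.1
      rw [mem_ball, dist_zero_right] at this
      exact this.le)
    refine le_trans ?_ h2
    have h3 := hue z.1 hz.1
    rw [← ofReal_norm, ← ENNReal.ofReal_one]
    apply ENNReal.ofReal_le_ofReal
    rw [Real.norm_eq_abs]
    exact h3.trans (le_abs_self _)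
  have step2 : ∫⁻ z, (∫⁻ s in Ioi (0:ℝ), ‖fderiv ℝ u (z.1 • e + s • z.2)‖ₑ) ∂μ =
      ∫⁻ s in Ioi (0:ℝ), ∫⁻ z, ‖fderiv ℝ u (z.1 • e + s • z.2)‖ₑ ∂μ :=
    lintegral_lintegral_swap (f := fun (z : ℝ × E n) (s : ℝ) =>
      ‖fderiv ℝ u (z.1 • e + s • z.2)‖ₑ) hG.measurable.aemeasurable
  have step3 : ∀ s ∈ Ioi (0:ℝ), ∫⁻ z, ‖fderiv ℝ u (z.1 • e + s • z.2)‖ₑ ∂μ ≤
      en p u ^ (1 / p) * (volume (ball (0 : E n) 1) ^ (1 - 1 / p) *
        ENNReal.ofReal ((s ^ n)⁻¹ * min 1 (2 * s)) ^ (1 / p)) := by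
    intro s hs
    have hGs : Measurable fun z : ℝ × E n => ‖fderiv ℝ u (z.1 • e + s • z.2)‖ₑ := by
      have : Continuous fun z : ℝ × E n => ‖fderiv ℝ u (z.1 • e + s • z.2)‖ₑ := by
        have h1 : Continuous (fderiv ℝ u) := hu.continuous_fderiv one_ne_zero
        fun_prop
      exact this.measurable
    have hpq : p.HolderConjugate (p / (p - 1)) := Real.HolderConjugate.conjExponent hp
    have h1 := ENNReal.lintegral_mul_le_Lp_mul_Lq μ hpq hGs.aemeasurable
      (aemeasurable_const (b := (1 : ℝ≥0∞)))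
    simp only [Pi.mul_apply, mul_one, ENNReal.one_rpow, lintegral_const, one_mul] at h1
    rw [hμu] at h1
    have h2 : 1 / (p / (p - 1)) = 1 - 1 / p := by
      field_simp
    rw [h2] at h1
    refine h1.trans ?_
    have h3 : ∫⁻ z, ‖fderiv ℝ u (z.1 • e + s • z.2)‖ₑ ^ p ∂μ ≤
        ENNReal.ofReal ((s ^ n)⁻¹ * min 1 (2 * s)) * en p u := by
      rw [hμ, lintegral_prod _ (by exact (hGs.pow_const p).aemeasurable)]
      refine seg (fun x => ‖fderiv ℝ u x‖ₑ ^ p) ?_ e he s hs
      have h1 : Continuous (fderiv ℝ u) := hu.continuous_fderiv one_ne_zero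
      exact (h1.enorm.measurable).pow_const p
    calc (∫⁻ z, ‖fderiv ℝ u (z.1 • e + s • z.2)‖ₑ ^ p ∂μ) ^ (1 / p) *
          volume (ball (0 : E n) 1) ^ (1 - 1 / p)
        ≤ (ENNReal.ofReal ((s ^ n)⁻¹ * min 1 (2 * s)) * en p u) ^ (1 / p) *
          volume (ball (0 : E n) 1) ^ (1 - 1 / p) := by
          gcongr
      _ = en p u ^ (1 / p) * (volume (ball (0 : E n) 1) ^ (1 - 1 / p) *
        ENNReal.ofReal ((s ^ n)⁻¹ * min 1 (2 * s)) ^ (1 / p)) := by
          rw [ENNReal.mul_rpow_of_nonneg _ _ (by positivity)]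
          ring
  rw [← hμu]
  calc μ univ ≤ ∫⁻ s in Ioi (0:ℝ), ∫⁻ z, ‖fderiv ℝ u (z.1 • e + s • z.2)‖ₑ ∂μ := by
        rw [← step2]; exact step1
    _ ≤ ∫⁻ s in Ioi (0:ℝ), en p u ^ (1 / p) * (volume (ball (0 : E n) 1) ^ (1 - 1 / p) *
        ENNReal.ofReal ((s ^ n)⁻¹ * min 1 (2 * s)) ^ (1 / p)) :=
        setLIntegral_mono' measurableSet_Ioi step3
    _ = _ := by
        rw [hμu]
        have hm : Measurable fun s : ℝ =>
            ENNReal.ofReal ((s ^ n)⁻¹ * min 1 (2 * s)) ^ (1 / p) := by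
          fun_prop
        rw [lintegral_const_mul _ (hm.const_mul _), lintegral_const_mul _ hm]

theorem pos : StmtPOS := by
  intro n p hn hp1 hp2
  have hn' : (2:ℝ) ≤ n := by exact_mod_cast hn
  have hp : 1 < p := by linarith
  have hp0 : 0 < p := by linarith
  have : Nontrivial (E n) := by
    have : Nonempty (Fin n) := ⟨⟨0, by lia⟩⟩
    infer_instance
  constructor
  · set V : ℝ≥0∞ := volume (ball (0 : E n) 1) with hV
    have hV0 : V ≠ 0 := (measure_ball_pos _ _ one_pos).ne'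
    have hV1 : V ≠ ⊤ := measure_ball_lt_top.ne
    set J : ℝ≥0∞ := ∫⁻ s in Ioi (0:ℝ),
      ENNReal.ofReal ((s ^ n)⁻¹ * min 1 (2 * s)) ^ (1 / p) with hJ
    have hJ1 : J ≠ ⊤ := (scal n p hn hp1 hp2).ne
    have hVJ : V ^ (1 - 1 / p) * J ≠ ⊤ :=
      ENNReal.mul_ne_top (ENNReal.rpow_ne_top_of_ne_zero hV0 hV1) hJ1
    have hkey : (V / (V ^ (1 - 1 / p) * J)) ^ p ≤ segCap n p := by
      refine le_iInf fun u => le_iInf fun hu => ?_
      obtain ⟨hu1, hu2, e, he, hue⟩ := hu
      have h1 := main p hn hp1 u (hu1.of_le (by exact_mod_cast le_top)) hu2 e he hue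
      have h2 : V / (V ^ (1 - 1 / p) * J) ≤ en p u ^ (1 / p) :=
        ENNReal.div_le_of_le_mul h1
      calc (V / (V ^ (1 - 1 / p) * J)) ^ p ≤ (en p u ^ (1 / p)) ^ p :=
            ENNReal.rpow_le_rpow h2 hp0.le
        _ = en p u := by
            rw [← ENNReal.rpow_mul, one_div_mul_cancel hp0.ne', ENNReal.rpow_one]
    refine lt_of_lt_of_le ?_ hkey
    exact ENNReal.rpow_pos (ENNReal.div_pos hV0 hVJ) (ENNReal.div_ne_top hV1 (by
      intro h0
      have h1 : ∀ u : E n → ℝ, False := by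
        intro _
        -- `J` is not zero
        rw [mul_eq_zero] at h0
        rcases h0 with h0 | h0
        · exact (ENNReal.rpow_pos (pos_iff_ne_zero.2 hV0) hV1).ne' h0
        · rw [hJ, lintegral_eq_zero_iff (by fun_prop)] at h0
          have h3 : ∀ᵐ s ∂(volume.restrict (Ioi (0:ℝ))), s ∈ Ioi (0:ℝ) :=
            ae_restrict_mem measurableSet_Ioi
          have h4 : ∀ᵐ s ∂(volume.restrict (Ioi (0:ℝ))), False := by
            filter_upwards [h0, h3] with s hs1 hs2
            have hs0 : 0 < s := hs2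
            have : 0 < ENNReal.ofReal ((s ^ n)⁻¹ * min 1 (2 * s)) ^ (1 / p) := by
              apply ENNReal.rpow_pos
              · rw [ENNReal.ofReal_pos]; positivity
              · exact ENNReal.ofReal_ne_top
            exact this.ne' hs1
          rw [ae_iff] at h4
          simp at h4
      exact h1 0))
  · let φ : ContDiffBump (0 : E n) := ⟨2, 3, by norm_num, by norm_num⟩
    have h1 : segCap n p ≤ en p (φ : E n → ℝ) := by
      refine iInf_le_of_le (φ : E n → ℝ) (iInf_le _ ⟨φ.contDiff, φ.hasCompactSupport, ?_⟩)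
      obtain ⟨e, he⟩ := exists_norm_eq (E n) (zero_le_one' ℝ)
      refine ⟨e, he, fun t ht => ?_⟩
      rw [φ.one_of_mem_closedBall]
      rw [mem_closedBall, dist_zero_right, norm_smul, he, mul_one, Real.norm_eq_abs,
        abs_of_nonneg ht.1]
      show t ≤ 2
      linarith [ht.2]
    refine h1.trans_lt ?_
    have hcd : Continuous (fderiv ℝ (φ : E n → ℝ)) :=
      (φ.contDiff (n := 1)).continuous_fderiv one_ne_zero
    have hcs : HasCompactSupport (fderiv ℝ (φ : E n → ℝ)) :=
      φ.hasCompactSupport.fderiv (𝕜 := ℝ)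
    obtain ⟨C, hC⟩ := hcd.bounded_above_of_compact_support hcs
    have hC0 : 0 ≤ C := (norm_nonneg _).trans (hC 0)
    unfold en
    calc ∫⁻ x, ‖fderiv ℝ (φ : E n → ℝ) x‖ₑ ^ p
        ≤ ∫⁻ x, (tsupport (fderiv ℝ (φ : E n → ℝ))).indicator
            (fun _ => ENNReal.ofReal C ^ p) x := by
          refine lintegral_mono fun x => ?_
          by_cases hx : x ∈ tsupport (fderiv ℝ (φ : E n → ℝ))
          · rw [indicator_of_mem hx]
            refine ENNReal.rpow_le_rpow ?_ hp0.le
            rw [← ofReal_norm]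
            exact ENNReal.ofReal_le_ofReal (hC x)
          · rw [indicator_of_notMem hx, ← ofReal_norm, image_eq_zero_of_notMem_tsupport hx,
              norm_zero, ENNReal.ofReal_zero, ENNReal.zero_rpow_of_pos hp0]
      _ = ENNReal.ofReal C ^ p * volume (tsupport (fderiv ℝ (φ : E n → ℝ))) := by
          rw [lintegral_indicator (isClosed_tsupport _).measurableSet, setLIntegral_const]
      _ < ⊤ := by
          refine ENNReal.mul_lt_top ?_ hcs.isCompact.measure_lt_top
          exact ENNReal.rpow_lt_top_of_nonneg hp0.le ENNReal.ofReal_ne_top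

end Pool.Agent.Helper77.RQ
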